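import Pool.Agent.H14.BR.Stm

/-! Part CHO of the crew BR (`MP_9214e0_lc`): countable choice in `M`. -/

set_option autoImplicit false

namespace H35.BR

open ZFSet (pair)
open Pool.Agent.W868 H46.RF H14.BR

theorem cho : S_CHO := by
  intro M hMC R hR A hA hex
  have hM : IsZF M := hMC.toIsZF
  have hB := hM.base
  -- the fibre over `n`
  let F : ZFSet.{0} → ZFSet.{0} := fun n =>
    ZFSet.sep (fun z => fs z = n ∧ R (fs z) (sn z)) (ZFSet.prod ZFSet.omega A)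
  have hFd : DfnF M M (fun w : Fin 1 → ZFSet.{0} => F (w 0)) := by
    refine hM.sep' (F := fun _ : Fin 1 → ZFSet.{0} => ZFSet.prod ZFSet.omega A)
      (Q := fun z v => fs z = v 0 ∧ R (fs z) (sn z)) ?_ ?_
    · exact DfnF.const (hM.prod_mem hM.infinity hA)
    · refine Dfn.and (Dfn.eq (hM.fs' (DfnF.proj 0)) (DfnF.proj 1)) ?_
      exact Dfn.comp2 (Q := R) hR (hM.fs' (DfnF.proj 0)) (hM.sn' (DfnF.proj 0))
  obtain ⟨X, hX, hXm⟩ := hM.image_mem hM.infinity hFd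
  have hmF : ∀ n : ℕ, ∀ z, z ∈ F (nat n) ↔ ∃ a ∈ A, z = pair (nat n) a ∧ R (nat n) a := by
    intro n z
    constructor
    · intro hz
      obtain ⟨h1, h2, h3⟩ := ZFSet.mem_sep.1 hz
      obtain ⟨a, ha, b, hb, rfl⟩ := ZFSet.mem_prod.1 h1
      simp only [fs_pair, sn_pair] at h2 h3
      subst h2
      exact ⟨b, hb, rfl, h3⟩
    · rintro ⟨a, ha, rfl, h⟩
      refine ZFSet.mem_sep.2 ⟨ZFSet.pair_mem_prod.2 ⟨mem_omega_iff.2 ⟨n, rfl⟩, ha⟩, ?_, ?_⟩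
      · simp
      · simpa using h
  obtain ⟨c, hc, hcc⟩ := hMC.choice X hX (by
    intro y hy
    obtain ⟨m, hm, rfl⟩ := (hXm y).1 hy
    obtain ⟨n, rfl⟩ := mem_omega_iff.1 hm
    obtain ⟨a, ha, hRa⟩ := hex n
    exact ⟨pair (nat n) a, (hmF n _).2 ⟨a, ha, rfl, hRa⟩⟩) (by
    intro y hy y' hy' z hz hz'
    obtain ⟨m, hm, rfl⟩ := (hXm y).1 hy
    obtain ⟨m', hm', rfl⟩ := (hXm y').1 hy'
    have h1 := (ZFSet.mem_sep.1 hz).2.1
    have h2 := (ZFSet.mem_sep.1 hz').2.1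
    rw [← h1, ← h2])
  -- the graph
  have hW : ZFSet.sep (fun z => z ∈ c ∧ R (fs z) (sn z)) (ZFSet.prod ZFSet.omega A) ∈ M := by
    refine hM.sep_mem (Q := fun z => z ∈ c ∧ R (fs z) (sn z)) ?_ (hM.prod_mem hM.infinity hA)
    refine Dfn.and (Dfn.mem (DfnF.proj 0) (DfnF.const hc)) ?_
    exact Dfn.comp2 (Q := R) hR (hM.fs' (DfnF.proj 0)) (hM.sn' (DfnF.proj 0))
  refine ⟨_, hW, ?_, ?_⟩
  · intro z hz
    obtain ⟨h1, h2, h3⟩ := ZFSet.mem_sep.1 hz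
    obtain ⟨a, ha, b, hb, rfl⟩ := ZFSet.mem_prod.1 h1
    obtain ⟨n, rfl⟩ := mem_omega_iff.1 ha
    simp only [fs_pair, sn_pair] at h3
    exact ⟨n, b, hb, rfl, h3⟩
  · intro n
    have hmem : F (nat n) ∈ X := (hXm _).2 ⟨nat n, mem_omega_iff.2 ⟨n, rfl⟩, rfl⟩
    obtain ⟨z, ⟨hz1, hz2⟩, huniq⟩ := hcc _ hmem
    obtain ⟨a, ha, rfl, hRa⟩ := (hmF n z).1 hz1
    refine ⟨a, ?_, ?_⟩
    · refine ZFSet.mem_sep.2 ⟨ZFSet.pair_mem_prod.2 ⟨mem_omega_iff.2 ⟨n, rfl⟩, ha⟩, hz2, ?_⟩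
      simpa using hRa
    · intro b hb
      obtain ⟨h1, h2, h3⟩ := ZFSet.mem_sep.1 hb
      have hbA := (ZFSet.pair_mem_prod.1 h1).2
      simp only [fs_pair, sn_pair] at h3
      have := huniq (pair (nat n) b) ⟨(hmF n _).2 ⟨b, hbA, rfl, h3⟩, h2⟩
      exact (ZFSet.pair_inj.1 this).2

end H35.BR
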