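import Pool.Agent.H14.BR.Stm

/-! Part TR2 of the crew BR (`MP_9214e0_lc`): translation of names by a relation (adapted from the
part TRN of crew RF by helper24). -/

set_option autoImplicit false

namespace H35.BR

open ZFSet (pair)
open Pool.Agent.W868 H46.RF H14.BR

/-- twice the union -/
noncomputable def uu (x : ZFSet.{0}) : ZFSet.{0} := ZFSet.sUnion (ZFSet.sUnion x)

theorem uu_wf : WellFounded fun u z : ZFSet.{0} => u ∈ uu z := by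
  refine Subrelation.wf (r := InvImage (· < ·) ZFSet.rank) ?_ (InvImage.wf _ Ordinal.lt_wf)
  intro u z hu
  unfold uu at hu
  obtain ⟨a, ha, hua⟩ := ZFSet.mem_sUnion.1 hu
  obtain ⟨b, hb, hab⟩ := ZFSet.mem_sUnion.1 ha
  exact (ZFSet.rank_lt_of_mem hua).trans ((ZFSet.rank_lt_of_mem hab).trans
    (ZFSet.rank_lt_of_mem hb))

theorem mem_uu {y p x : ZFSet.{0}} (h : pair y p ∈ x) : y ∈ uu x := by
  unfold uu
  refine ZFSet.mem_sUnion.2 ⟨{y}, ZFSet.mem_sUnion.2 ⟨pair y p, h, ?_⟩, by simp⟩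
  simp [pair]

/-- one step of the recursion -/
noncomputable def stp (R : ZFSet.{0} → ZFSet.{0} → Prop) (Q z g : ZFSet.{0}) : ZFSet.{0} :=
  im (fun s => pair (sn (fs s)) (sn (sn s)))
    (ZFSet.sep (fun s => fs (fs s) = fs (fs (sn s)) ∧
      fs (sn s) = pair (fs (fs (sn s))) (sn (fs (sn s))) ∧ R (sn (fs (sn s))) (sn (sn s)))
      (ZFSet.prod g (ZFSet.prod z Q)))

/-- translation of names -/
noncomputable def tr (R : ZFSet.{0} → ZFSet.{0} → Prop) (Q : ZFSet.{0}) : ZFSet.{0} → ZFSet.{0} :=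
  wfF uu uu_wf (stp R Q)

theorem mem_tr (R : ZFSet.{0} → ZFSet.{0} → Prop) (Q x t : ZFSet.{0}) :
    t ∈ tr R Q x ↔ ∃ y p q, pair y p ∈ x ∧ q ∈ Q ∧ R p q ∧ t = pair (tr R Q y) q := by
  rw [tr, wfF_eq, ← tr, stp, mem_im]
  constructor
  · rintro ⟨s, hs, rfl⟩
    obtain ⟨h1, h2, h3, h4⟩ := ZFSet.mem_sep.1 hs
    obtain ⟨a, ha, w, hw, rfl⟩ := ZFSet.mem_prod.1 h1
    obtain ⟨t, ht, q, hq, rfl⟩ := ZFSet.mem_prod.1 hw
    obtain ⟨u, hu, rfl⟩ := mem_gr.1 ha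
    simp only [fs_pair, sn_pair] at h2 h3 h4 ⊢
    refine ⟨u, sn t, q, ?_, hq, h4, rfl⟩
    rw [h2, ← h3]
    exact ht
  · rintro ⟨y, p, q, hy, hq, hR, rfl⟩
    refine ⟨pair (pair y (tr R Q y)) (pair (pair y p) q), ZFSet.mem_sep.2 ⟨?_, ?_, ?_, ?_⟩, ?_⟩
    · exact ZFSet.pair_mem_prod.2 ⟨mem_gr.2 ⟨y, mem_uu hy, rfl⟩, ZFSet.pair_mem_prod.2 ⟨hy, hq⟩⟩
    · simp
    · simp
    · simpa using hR
    · simp

theorem tr_dfn {M : Set ZFSet.{0}} (hM : IsZF M) (R : ZFSet.{0} → ZFSet.{0} → Prop)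
    (hR : Dfn M M (fun w : Fin 2 → ZFSet.{0} => R (w 0) (w 1))) {Q : ZFSet.{0}} (hQ : Q ∈ M) :
    DfnF M M (fun w : Fin 1 → ZFSet.{0} => tr R Q (w 0)) := by
  have hB := hM.base
  refine hM.wfrec (pr := uu) (G := stp R Q) (F := tr R Q) uu_wf ?_ ?_ (fun z => ?_)
  · exact hB.sUnion' (hB.sUnion' (DfnF.proj 0))
  · refine hM.im' (F := fun v : Fin 2 → ZFSet.{0} => ZFSet.sep (fun s =>
      fs (fs s) = fs (fs (sn s)) ∧
      fs (sn s) = pair (fs (fs (sn s))) (sn (fs (sn s))) ∧ R (sn (fs (sn s))) (sn (sn s)))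
      (ZFSet.prod (v 1) (ZFSet.prod (v 0) Q)))
      (h := fun s _ => pair (sn (fs s)) (sn (sn s))) ?_ ?_
    · refine hM.sep' (F := fun v : Fin 2 → ZFSet.{0} => ZFSet.prod (v 1) (ZFSet.prod (v 0) Q))
        (Q := fun s _ => fs (fs s) = fs (fs (sn s)) ∧
          fs (sn s) = pair (fs (fs (sn s))) (sn (fs (sn s))) ∧ R (sn (fs (sn s))) (sn (sn s))) ?_ ?_
      · exact hM.prod' (DfnF.proj 1) (hM.prod' (DfnF.proj 0) (DfnF.const hQ))
      · refine Dfn.and (Dfn.eq (hM.fs' (hM.fs' (DfnF.proj 0)))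
          (hM.fs' (hM.fs' (hM.sn' (DfnF.proj 0))))) (Dfn.and
          (Dfn.eq (hM.fs' (hM.sn' (DfnF.proj 0))) (hB.pair' (hM.fs' (hM.fs' (hM.sn' (DfnF.proj 0))))
          (hM.sn' (hM.fs' (hM.sn' (DfnF.proj 0)))))) ?_)
        exact Dfn.comp2 (Q := R) hR (hM.sn' (hM.fs' (hM.sn' (DfnF.proj 0))))
          (hM.sn' (hM.sn' (DfnF.proj 0)))
    · exact hB.pair' (hM.sn' (hM.fs' (DfnF.proj 0))) (hM.sn' (hM.sn' (DfnF.proj 0)))
  · rw [tr, wfF_eq]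

theorem tr2 : S_TR2 := by
  intro M hM R hR Q hQ G G' hG
  have hd := tr_dfn hM R hR hQ
  have key : ∀ x : ZFSet.{0}, x ∈ M → ev G (tr R Q x) = ev G' x := by
    intro x
    induction x using uu_wf.induction with
    | _ x ih =>
    intro hx
    ext z
    rw [mem_ev, mem_ev]
    constructor
    · rintro ⟨y', p', h1, h2, rfl⟩
      obtain ⟨y, p, q, h3, hq, hpq, h4⟩ := (mem_tr R Q x _).1 h1
      obtain ⟨rfl, rfl⟩ := ZFSet.pair_inj.1 h4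
      obtain ⟨hy, hp⟩ := hM.of_pair_mem (hM.trans _ hx _ h3)
      exact ⟨y, p, h3, (hG p hp).2 ⟨_, hq, hpq, h2⟩, (ih y (mem_uu h3) hy).symm⟩
    · rintro ⟨y, p, h1, h2, rfl⟩
      obtain ⟨hy, hp⟩ := hM.of_pair_mem (hM.trans _ hx _ h1)
      obtain ⟨q, hq, hpq, hqG⟩ := (hG p hp).1 h2
      exact ⟨tr R Q y, q, (mem_tr R Q x _).2 ⟨y, p, q, h1, hq, hpq, rfl⟩, hqG,
        ih y (mem_uu h1) hy⟩
  rintro z ⟨x, hx, rfl⟩
  exact ⟨tr R Q x, hd.1 (fun _ => x) (fun _ => hx), key x hx⟩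

end H35.BR
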